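import Mathlib
import Pool.Agent.Lib.MP_3dbc4a_an.Defs

/-!
# MP_3dbc4a_an, project W (wandering domain with a Cantor limit set): definitions

`f(x, y) = (p(x) - b y, x)`; orbits are the solutions of `x_{n+1} = p(x_n) - b x_{n-1}`.
Letters: `e fam j` (`K_1`, pasts), `f j` (`K_2`, futures), `g` (connection), folds `d i`, `i < 8`,
and pins (prescribed values, for boundary value problems).
-/

set_option autoImplicit false

open Filter Set
open scoped Topology

namespace Pool.Agent.WildW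

/-! ### numbers -/

/-- the Jacobian -/
noncomputable def b : ℝ := 1 / 2 ^ 100

/-- the slope of the letters of `K_2` -/
noncomputable def sg : ℝ := 2 ^ 20 * (1 + 16 * b)

/-- the small unit of length, `b / sg` -/
noncomputable def h : ℝ := b / sg

/-- precision of the polynomial model -/
noncomputable def eps : ℝ := 1 / 2 ^ 1000

/-! ### letters -/

/-- letters of `K_1`: two families (`false`: slope `3/4 M`, `true`: slope `3/2 M`) -/
abbrev KA := Bool × Fin (2 ^ 14)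

/-- letters of `K_2` -/
abbrev KB := Fin (2 ^ 20)

/-- plain letters -/
inductive Pl
  | e (c : KA)
  | f (j : KB)
  | g
  deriving DecidableEq

/-- letters: plain letters and folds -/
inductive Lt
  | p (c : Pl)
  | d (i : Fin 8)
  deriving DecidableEq

/-- symbols: letters and pins -/
inductive Sym
  | p (c : Pl)
  | d (i : Fin 8)
  | pin (v : ℝ)

/-- a letter as a symbol -/
def Lt.sym : Lt → Sym
  | .p c => .p c
  | .d i => .d i

/-- a bi-infinite word of letters as a word of symbols -/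
def symOf (s : ℤ → Lt) : ℤ → Sym := fun n => (s n).sym

/-- slope -/
noncomputable def Pl.sl : Pl → ℝ
  | .e c => if c.1 then 3 * 2 ^ 19 else 3 * 2 ^ 18
  | .f _ => sg
  | .g => 2 / h

/-- offset -/
noncomputable def Pl.off : Pl → ℝ
  | .e c => (if c.1 then 1 / 4 else 0) + (c.2 : ℕ) / 2 ^ 17
  | .f j => 2 + (j : ℕ) / 2 ^ 20
  | .g => 2 + 1 / sg + 8 * h

/-- base value (value of the affine branch at the offset) -/
noncomputable def Pl.bs : Pl → ℝ
  | .e _ => 0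
  | .f _ => 2
  | .g => 0

/-- the affine branch -/
noncomputable def Pl.aff (c : Pl) (x : ℝ) : ℝ := c.bs + c.sl * (x - c.off)

/-- left end of the window (affine value `bs - b`) -/
noncomputable def Pl.lo (c : Pl) : ℝ := c.off - b / c.sl

/-- right end of the window (affine value `3 + 4 b`) -/
noncomputable def Pl.hi (c : Pl) : ℝ := c.off + (3 - c.bs + 4 * b) / c.sl

/-- centre of the fold `i` -/
noncomputable def cc (i : Fin 8) : ℝ := 1 / 2 + (i : ℕ) / 32

/-- left end of the window of a letter -/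
noncomputable def Lt.lo : Lt → ℝ
  | .p c => c.lo
  | .d i => cc i - 1 / 128

/-- right end of the window of a letter -/
noncomputable def Lt.hi : Lt → ℝ
  | .p c => c.hi
  | .d i => cc i + 1 / 128

/-- window of a letter -/
def Lt.W (c : Lt) : Set ℝ := Icc c.lo c.hi

/-- enlarged window of a letter -/
def Lt.Wp (c : Lt) : Set ℝ := Icc (c.lo - h) (c.hi + h)

/-! ### the family of maps -/

/-- the parameter cube -/
def Cube (a : Fin 8 → ℝ) : Prop := ∀ i, |a i| ≤ 1 / 8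

/-- A family `P_a` of functions with derivatives `P1`, `P2`, close to the model: affine on the windows
of the plain letters, `5/2 + a_i - 2^20 (x - c_i)^2` on the window of the fold `i`. -/
structure Fam where
  P : (Fin 8 → ℝ) → ℝ → ℝ
  P1 : (Fin 8 → ℝ) → ℝ → ℝ
  P2 : (Fin 8 → ℝ) → ℝ → ℝ
  hP : ∀ a x, HasDerivAt (P a) (P1 a x) x
  hP1 : ∀ a x, HasDerivAt (P1 a) (P2 a x) x
  pl0 : ∀ a, Cube a → ∀ (c : Pl), ∀ x ∈ (Lt.p c).Wp, |P a x - c.aff x| ≤ eps
  pl1 : ∀ a, Cube a → ∀ (c : Pl), ∀ x ∈ (Lt.p c).Wp, |P1 a x - c.sl| ≤ eps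
  pl2 : ∀ a, Cube a → ∀ (c : Pl), ∀ x ∈ (Lt.p c).Wp, |P2 a x| ≤ eps
  fo0 : ∀ a, Cube a → ∀ (i : Fin 8), ∀ x ∈ (Lt.d i).Wp,
    |P a x - (5 / 2 + a i - 2 ^ 20 * (x - cc i) ^ 2)| ≤ eps
  fo1 : ∀ a, Cube a → ∀ (i : Fin 8), ∀ x ∈ (Lt.d i).Wp, |P1 a x + 2 ^ 21 * (x - cc i)| ≤ eps
  fo2 : ∀ a, Cube a → ∀ (i : Fin 8), ∀ x ∈ (Lt.d i).Wp, |P2 a x + 2 ^ 21| ≤ eps
  pa0 : ∀ a a', Cube a → Cube a' → ∀ (c : Pl), ∀ x ∈ (Lt.p c).Wp,
    |P a x - P a' x| ≤ eps * dist a a'
  pa1 : ∀ a a', Cube a → Cube a' → ∀ (c : Lt), ∀ x ∈ c.Wp, |P1 a x - P1 a' x| ≤ eps * dist a a'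
  pf0 : ∀ a a', Cube a → Cube a' → ∀ (i : Fin 8), ∀ x ∈ (Lt.d i).Wp,
    |P a x - P a' x - (a i - a' i)| ≤ eps * dist a a'

/-- the map `(x, y) ↦ (P_a(x) - b y, x)` -/
noncomputable def Fam.map (F : Fam) (a : Fin 8 → ℝ) (z : ℝ × ℝ) : ℝ × ℝ :=
  (F.P a z.1 - b * z.2, z.1)

/-! ### admissible words and solutions -/

/-- `K_2`-letters are followed by `K_2`-letters, by `g`, or by a pin in `[2 - 2h, 3 + h]`; all pins
lie in `[-4h, 3 + h]`. -/
def Adm (s : ℤ → Sym) : Prop :=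
  (∀ n j, s n = .p (.f j) → (∃ j', s (n + 1) = .p (.f j')) ∨ s (n + 1) = .p .g ∨
    ∃ v, s (n + 1) = .pin v ∧ 2 - 2 * h ≤ v) ∧
  ∀ n v, s n = .pin v → -(4 * h) ≤ v ∧ v ≤ 3 + h

/-- `(x, r, t)` is the solution of the word `s` for the parameter `a`: `x` is the sequence of
positions, `r n` and `t n` (`= θ_{n+1}`) are the continued fractions of the slopes. At a fold `x n`
is the point of tangency `P'(x_n) = b (r_{n+1} + θ_n)`. -/
structure IsSol (F : Fam) (a : Fin 8 → ℝ) (s : ℤ → Sym) (x r t : ℤ → ℝ) : Prop where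
  plW : ∀ n c, s n = .p c → x n ∈ (Lt.p c).W
  plx : ∀ n c, s n = .p c → F.P a (x n) = x (n + 1) + b * x (n - 1)
  plr : ∀ n c, s n = .p c → r n * (F.P1 a (x n) - b * r (n + 1)) = 1
  plt : ∀ n c, s n = .p c → t n * (F.P1 a (x n) - b * t (n - 1)) = 1
  foW : ∀ n i, s n = .d i → x n ∈ (Lt.d i).W
  fox : ∀ n i, s n = .d i → F.P1 a (x n) = b * (r (n + 1) + t (n - 1))
  fort : ∀ n i, s n = .d i → r n = 0 ∧ t n = 0
  pin : ∀ n v, s n = .pin v → x n = v ∧ r n = 0 ∧ t n = 0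
  rb : ∀ n, 0 ≤ r n ∧ r n ≤ 1 / 2 ^ 19
  tb : ∀ n, 0 ≤ t n ∧ t n ≤ 1 / 2 ^ 19

open Classical in
/-- the solution as a triple of sequences (chosen; `0` if there is none) -/
noncomputable def sol (F : Fam) (a : Fin 8 → ℝ) (s : ℤ → Sym) : (ℤ → ℝ) × (ℤ → ℝ) × (ℤ → ℝ) :=
  if hs : ∃ X : (ℤ → ℝ) × (ℤ → ℝ) × (ℤ → ℝ), IsSol F a s X.1 X.2.1 X.2.2 then hs.choose else 0

/-- positions of the solution -/
noncomputable def xs (F : Fam) (a : Fin 8 → ℝ) (s : ℤ → Sym) : ℤ → ℝ := (sol F a s).1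

/-- forward fractions of the solution -/
noncomputable def rs (F : Fam) (a : Fin 8 → ℝ) (s : ℤ → Sym) : ℤ → ℝ := (sol F a s).2.1

/-- backward fractions of the solution -/
noncomputable def ts (F : Fam) (a : Fin 8 → ℝ) (s : ℤ → Sym) : ℤ → ℝ := (sol F a s).2.2

/-- the residual at the index `n` -/
noncomputable def Phi (F : Fam) (a : Fin 8 → ℝ) (s : ℤ → Sym) (n : ℤ) : ℝ :=
  F.P a (xs F a s n) - b * xs F a s (n - 1) - xs F a s (n + 1)

/-- shift of a word -/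
def shiftW {α : Type*} (s : ℤ → α) (m : ℤ) : ℤ → α := fun n => s (n + m)

end Pool.Agent.WildW
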