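import Pool.Agent.Lib.MP_3dbc4a_an_WI.PhiD
import Pool.Agent.Lib.MP_3dbc4a_an_WL.Sy
import Pool.Agent.Lib.MP_3dbc4a_an_WO.ODefs

/-!
# MP_3dbc4a_an, project W: good words, their points (common to the blocks L and T)
-/

set_option autoImplicit false

open Filter Set
open scoped Topology

namespace Pool.Agent.WildW

/-- A good word: admissible, and either plain, or with exactly one fold, at `t`, with `K_1` letters
before and `K_2` letters after it, residual `0`, and infinitely many letters `≠ bot` in the future. -/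
def GoodW (F : Fam) (a : Fin 8 → ℝ) (ξ : ℤ → Lt) : Prop :=
  Adm (symOf ξ) ∧
  ((∀ n, ∃ c, ξ n = .p c) ∨
    ∃ (t : ℤ) (i : Fin 8), ξ t = .d i ∧ (∀ n, n < t → ∃ c, ξ n = .p (.e c)) ∧
      (∀ n, t < n → ∃ j, ξ n = .p (.f j)) ∧ Phi F a (symOf ξ) t = 0 ∧
      ∀ N : ℤ, ∃ n, N ≤ n ∧ ξ n ≠ .p (.f bot))

/-- the point of a word -/
noncomputable def pt (F : Fam) (a : Fin 8 → ℝ) (ξ : ℤ → Lt) : ℝ × ℝ :=
  (xs F a (symOf ξ) 0, xs F a (symOf ξ) (-1))

private theorem good_phi (F : Fam) {a : Fin 8 → ℝ} (ha : Cube a) {ξ : ℤ → Lt}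
    (hξ : GoodW F a ξ) (n : ℤ) : Phi F a (symOf ξ) n = 0 := by
  obtain ⟨hadm, hpl | ⟨t, i, ht, he, hf, hΦ, -⟩⟩ := hξ
  · obtain ⟨c, hc⟩ := hpl n
    exact Phi_plain F ha hadm (symOf_p.2 hc)
  · rcases lt_trichotomy n t with h | h | h
    · obtain ⟨c, hc⟩ := he n h
      exact Phi_plain F ha hadm (symOf_p.2 hc)
    · rw [h]
      exact hΦ
    · obtain ⟨j, hj⟩ := hf n h
      exact Phi_plain F ha hadm (symOf_p.2 hj)

private theorem good_adm {F : Fam} {a : Fin 8 → ℝ} {ξ : ℤ → Lt} (hξ : GoodW F a ξ) :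
    Adm (symOf ξ) := hξ.1

/-- the positions of a good word form a true orbit -/
theorem good_orbit (F : Fam) {a : Fin 8 → ℝ} (ha : Cube a) {ξ : ℤ → Lt} (hξ : GoodW F a ξ)
    (n : ℤ) : xs F a (symOf ξ) (n + 1) =
      F.P a (xs F a (symOf ξ) n) - b * xs F a (symOf ξ) (n - 1) := by
  have h := good_phi F ha hξ n
  unfold Phi at h
  linarith

/-- shifts of good words are good -/
theorem good_shift (F : Fam) {a : Fin 8 → ℝ} (ha : Cube a) {ξ : ℤ → Lt} (hξ : GoodW F a ξ)
    (m : ℤ) : GoodW F a (shiftW ξ m) := by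
  obtain ⟨hadm, h⟩ := hξ
  refine ⟨adm_shift hadm m, ?_⟩
  rcases h with hpl | ⟨t, i, ht, he, hf, hΦ, hN⟩
  · exact Or.inl fun n => hpl (n + m)
  · refine Or.inr ⟨t - m, i, ?_, fun n hn => he (n + m) (by omega),
      fun n hn => hf (n + m) (by omega), ?_, fun N => ?_⟩
    · change ξ (t - m + m) = .d i
      rw [sub_add_cancel]
      exact ht
    · have h1 := (xs_shift F ha hadm m (t - m)).1
      have h2 := (xs_shift F ha hadm m (t - m - 1)).1
      have h3 := (xs_shift F ha hadm m (t - m + 1)).1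
      rw [show t - m + m = t by ring] at h1
      rw [show t - m - 1 + m = t - 1 by ring] at h2
      rw [show t - m + 1 + m = t + 1 by ring] at h3
      unfold Phi at hΦ ⊢
      rw [symOf_shift, h1, h2, h3]
      exact hΦ
    · obtain ⟨n, hn, hn'⟩ := hN (N + m)
      refine ⟨n - m, by omega, ?_⟩
      change ξ (n - m + m) ≠ _
      rw [sub_add_cancel]
      exact hn'

/-- the map acts as the shift -/
theorem map_pt (F : Fam) {a : Fin 8 → ℝ} (ha : Cube a) {ξ : ℤ → Lt} (hξ : GoodW F a ξ) :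
    F.map a (pt F a ξ) = pt F a (shiftW ξ 1) := by
  have h0 := good_orbit F ha hξ 0
  have h1 := (xs_shift F ha (good_adm hξ) 1 0).1
  have h2 := (xs_shift F ha (good_adm hξ) 1 (-1)).1
  rw [zero_add, zero_sub] at h0
  rw [zero_add] at h1
  rw [show (-1 : ℤ) + 1 = 0 by norm_num] at h2
  unfold pt
  rw [symOf_shift, h1, h2, h0]
  rfl

private theorem good_win (F : Fam) {a : Fin 8 → ℝ} (ha : Cube a) {ξ : ℤ → Lt}
    (hξ : GoodW F a ξ) (n : ℤ) : xs F a (symOf ξ) n ∈ (ξ n).Wp := by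
  have hs := isSol_sol F ha (good_adm hξ)
  have h1 : xs F a (symOf ξ) n ∈ (ξ n).W := by
    cases hc : ξ n with
    | p c => exact hs.plW n c (symOf_p.2 hc)
    | d i => exact hs.foW n i (symOf_d.2 hc)
  have hh := h_pos
  exact ⟨by linarith [h1.1], by linarith [h1.2]⟩

/-- the point determines the word: both are true orbits, `b ≠ 0`, so all positions agree, and the
windows are disjoint -/
theorem pt_inj (F : Fam) {a : Fin 8 → ℝ} (ha : Cube a) {ξ ξ' : ℤ → Lt} (hξ : GoodW F a ξ)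
    (hξ' : GoodW F a ξ') (he : pt F a ξ = pt F a ξ') : ξ = ξ' := by
  have e0 : xs F a (symOf ξ) 0 = xs F a (symOf ξ') 0 := congrArg Prod.fst he
  have e1 : xs F a (symOf ξ) (-1) = xs F a (symOf ξ') (-1) := congrArg Prod.snd he
  have key : ∀ n : ℤ, xs F a (symOf ξ) n = xs F a (symOf ξ') n ∧
      xs F a (symOf ξ) (n - 1) = xs F a (symOf ξ') (n - 1) := by
    intro n
    induction n using Int.induction_on with
    | zero => exact ⟨e0, by rw [zero_sub]; exact e1⟩
    | succ k ih =>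
      refine ⟨?_, by rw [add_sub_cancel_right]; exact ih.1⟩
      rw [good_orbit F ha hξ, good_orbit F ha hξ', ih.1, ih.2]
    | pred k ih =>
      refine ⟨ih.2, ?_⟩
      have h1 := good_orbit F ha hξ (-(k : ℤ) - 1)
      have h2 := good_orbit F ha hξ' (-(k : ℤ) - 1)
      rw [sub_add_cancel, ih.1, ih.2] at h1
      rw [sub_add_cancel] at h2
      have h3 : b * xs F a (symOf ξ) (-(k : ℤ) - 1 - 1) =
          b * xs F a (symOf ξ') (-(k : ℤ) - 1 - 1) := by linarith
      exact mul_left_cancel₀ b_pos.ne' h3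
  funext n
  by_contra hne
  have h1 := good_win F ha hξ n
  have h2 := good_win F ha hξ' n
  rw [(key n).1] at h1
  exact Set.disjoint_left.1 (Wp_disjoint hne) h1 h2

end Pool.Agent.WildW
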