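import Pool.Agent.Lib.MP_3dbc4a_an_W.Defs
import Pool.Agent.Lib.MP_3dbc4a_an_WP.Win
import Pool.Agent.Lib.MP_3dbc4a_an_WP.FamEx
import Pool.Agent.Lib.MP_3dbc4a_an_WI.Barr
import Pool.Agent.Lib.MP_3dbc4a_an_WI.PhiD

/-!
# MP_3dbc4a_an, project W: blocks P (polynomial model) and I (solution theory)

Umbrella of the two blocks: `exists_fam`, `Wp_disjoint`, `Wp_sub`, `isSol_sol`, `IsSol.mem`,
`main_ineq`, `barrier`, `sol_unique`, `dep`, `dep_left`, `dep_right`, `xs_shift`, `Phi_dep`,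
`Phi_plain`.
-/
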