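import Pool.Agent.Lib.MP_3dbc4a_an_WL.All

/-!
# MP_3dbc4a_an, project W: block L (the limit set)

All statements of the block are proved in the modules `Pool.Agent.Lib.MP_3dbc4a_an_WL.*`.
-/
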