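import Pool.Agent.Lib.MP_3dbc4a_an_WL.All
import Pool.Agent.Lib.MP_3dbc4a_an_WL.Ca
import Pool.Agent.Lib.MP_3dbc4a_an_WL.Gc
import Pool.Agent.Lib.MP_3dbc4a_an_WL.Nt
import Pool.Agent.Lib.MP_3dbc4a_an_WP.FamEx
import Pool.Agent.Lib.MP_3dbc4a_an_WT.Main
import Pool.Agent.Lib.MP_3dbc4a_an_WW.Wander

/-!
# MP_3dbc4a_an, project W: assembly
-/

set_option autoImplicit false

open Filter Set MeasureTheory
open scoped Topology

namespace Pool.Agent.WildW

theorem main_result :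
    ∃ (p : Polynomial ℝ) (β : ℝ), 2 ≤ p.natDegree ∧ 0 < β ∧ β < 1 ∧
      ∃ Λ T D : Set (ℝ × ℝ),
        (Λ.Nonempty ∧ IsCompact Λ ∧ Perfect Λ ∧ IsTotallyDisconnected Λ) ∧
        Wild.henon p β '' Λ = Λ ∧
        IsOpen D ∧ D.Nonempty ∧
        (∀ z ∈ D, Wild.omegaSet (Wild.henon p β) z = Λ ∧
          Tendsto (fun n : ℕ => Metric.infDist ((Wild.henon p β)^[n] z) Λ) atTop (𝓝 0)) ∧
        0 < volume (Wild.basin (Wild.henon p β) Λ) ∧
        Wild.IsTransitiveSet (Wild.henon p β) T ∧ Λ ⊂ T := by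
  obtain ⟨F, hF⟩ := exists_fam
  obtain ⟨a, E, B, u, hC⟩ := exists_chain F
  obtain ⟨p, hp, hpF⟩ := hF a hC.cube
  have hmap : F.map a = Wild.henon p b := by
    funext z
    simp only [Fam.map, Wild.henon, hpF]
  have hb : 0 < b ∧ b < 1 := by unfold b; norm_num
  obtain ⟨h1, h2, h3, h4, h5⟩ := lambda_cantor hC
  obtain ⟨D, hD1, hD2, hD3⟩ := wander F hC.cube (itinI_adm E B u hC.u1 hC.u2 hC.lenB)
    (T := TT) (d := dd) (m := mm) (γ := fun j => j + 2) rfl (fun _ => rfl)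
    (by
      intro j
      refine ⟨fo j, ?_⟩
      have h : TT j < TT (j + 1) - nn (j + 1) := by
        have h1 := fit j
        have h2 : TT (j + 1) = TT j + mm j + 1 := rfl
        rw [h2]
        have h3 : ((6 * nn j + 3 + j + 1 + nn (j + 1) : ℕ) : ℤ) ≤ (mm j : ℕ) := by exact_mod_cast h1
        push_cast at h3
        have h4 : (0 : ℤ) ≤ nn j := Int.natCast_nonneg _
        have h5 : (0 : ℤ) ≤ j := Int.natCast_nonneg _
        linarith
      rw [itinI_eq E B u h]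
      exact itin_fold E B u hC.u1 (Nat.lt_succ_self j))
    (fun j n h1 h2 => itinI_plain hC j n h1 h2) (gcount hC) hC.res C1_ok C2_ok
    (fun j => le_trans (by norm_num) (dd_lower j |> le_trans (Nat.le_add_right 20000 _)))
    (tendsto_atTop_mono (fun j => (by have := dd_lower j; omega : j ≤ dd j)) tendsto_id)
  have hω : ∀ z ∈ D, Wild.omegaSet (Wild.henon p b) z = pt F a '' LL (itinI E B u) ∧
      Tendsto (fun n : ℕ => Metric.infDist ((Wild.henon p b)^[n] z)
        (pt F a '' LL (itinI E B u))) atTop (𝓝 0) := by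
    intro z hz
    rw [← hmap]
    exact omega_centre hC (hD3 z hz)
  obtain ⟨T, hT, hTg⟩ := exists_T F hC.cube
  refine ⟨p, b, hp, hb.1, hb.2, pt F a '' LL (itinI E B u), T, D, ⟨h1, h2, h3, h4⟩, ?_, hD1, hD2,
    hω, ?_, ?_, ?_⟩
  · rw [← hmap]; exact h5
  · refine lt_of_lt_of_le (hD1.measure_pos volume hD2) (measure_mono ?_)
    intro z hz
    refine ⟨?_, (hω z hz).1.le⟩
    rw [(hω z hz).1]; exact h1
  · rw [← hmap]; exact hT
  · refine ⟨?_, ?_⟩
    · rintro _ ⟨ξ, hξ, rfl⟩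
      exact hTg ξ (LL_good hC hξ)
    · intro hle
      obtain ⟨-, -, z, hz, hzT⟩ := hT
      have hTL : T = pt F a '' LL (itinI E B u) := by
        refine Subset.antisymm hle ?_
        rintro _ ⟨ξ, hξ, rfl⟩
        exact hTg ξ (LL_good hC hξ)
      exact lambda_not_transitive hC (hTL ▸ hz) (by rw [hzT, hTL])

end Pool.Agent.WildW
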