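import Pool.Agent.Lib.MP_3dbc4a_an_WO.Renode
import Pool.Agent.Lib.MP_3dbc4a_an_WO.NodeRes
import Pool.Agent.Lib.MP_3dbc4a_an_WO.SvBd
import Pool.Agent.Lib.MP_3dbc4a_an_WO.RatioPar
import Pool.Agent.Lib.MP_3dbc4a_an_WO.Root
import Pool.Agent.Lib.MP_3dbc4a_an_WO.Sieve
import Pool.Agent.Lib.MP_3dbc4a_an_WO.RsF
import Pool.Agent.Lib.MP_3dbc4a_an_WO.ProdP
import Pool.Agent.Lib.MP_3dbc4a_an_WO.Sharp
import Pool.Agent.Lib.MP_3dbc4a_an_WO.SharpL
import Pool.Agent.Lib.MP_3dbc4a_an_WO.WStep

/-!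
# MP_3dbc4a_an, project W: block O (comparison of residuals, cells, sieve)

`M = 2^20`, `b = M^-5`, `K_2`: slope `sg = M (1 + 16 b)`, so `1/M = 1/sg + 16 h`.
For a past word `E` (nearest letter first) and a future word `B` the residual `R` of the word
`... E_2 E_1 | fold i | B_1 B_2 ...` decreases when the future moves up and when the past moves up.
`Sv` = size of the cell of `B` in the residual (product of `r`), `Wv` = size of the cell of `E`
(`b *` product of `b θ`). `X = b Sv / Wv` is kept in `[140, 320]` (`|B| = 6 |E|`).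
The statements are in the modules `Lib/MP_3dbc4a_an_WO`.
-/
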