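import Pool.Agent.Lib.MP_3dbc4a_an_WS.Chain
import Pool.Agent.Lib.MP_3dbc4a_an_WS.NumA
import Pool.Agent.Lib.MP_3dbc4a_an_WS.NumB
import Pool.Agent.Lib.MP_3dbc4a_an_WS.NumC

/-!
# MP_3dbc4a_an, project W: block S (all theorems are proved in the folder MP_3dbc4a_an_WS)
-/
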