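import Pool.Agent.Lib.MP_3dbc4a_an_WT.Main

/-!
# MP_3dbc4a_an, project W: the block T (the transitive set, `exists_T`) is proved in the folder _WT
-/
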