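import Pool.Agent.Lib.MP_3dbc4a_an_WW.Wander

/-!
# MP_3dbc4a_an, project W: interface of the block W (wandering domain)

Umbrella file: `transit` is in `MP_3dbc4a_an_WW/Transit.lean`, `wander` in
`MP_3dbc4a_an_WW/Wander.lean` (same names, same namespace, statements verbatim).
-/
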